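import Pool.Agent.W872.MX.Stm

/-!
# Part RND of project MX: almost all colourings of odd order have property `PM`
-/

set_option autoImplicit false

namespace W369.MX

open Finset Filter W872.MX

/-- the left vertices -/
def va (r : ℕ) (i : Fin r) : Fin (2 * r + 1) := ⟨i.1, by have := i.2; omega⟩

/-- the right vertices -/
def vb (r : ℕ) (i : Fin r) : Fin (2 * r + 1) := ⟨r + i.1, by have := i.2; omega⟩

theorem va_inj {r : ℕ} {i j : Fin r} (h : va r i = va r j) : i = j := by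
  have := congrArg Fin.val h
  exact Fin.ext this

theorem vb_inj {r : ℕ} {i j : Fin r} (h : vb r i = vb r j) : i = j := by
  have : r + i.1 = r + j.1 := congrArg Fin.val h
  exact Fin.ext (by omega)

theorem va_ne_vb {r : ℕ} (i j : Fin r) : va r i ≠ vb r j := by
  intro h
  have h1 : i.1 = r + j.1 := congrArg Fin.val h
  have := i.2
  omega

theorem hasRB_of_inj {r : ℕ} (R : SimpleGraph (Fin (2 * r + 1))) (f : Fin r → Fin r)
    (hf : Function.Injective f) (h : ∀ i, R.Adj (va r i) (vb r (f i))) : HasRB R univ r 0 := by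
  refine ⟨⟨fun x => match x with
    | (Sum.inl i, false) => va r i
    | (Sum.inl i, true) => vb r (f i)
    | (Sum.inr j, _) => j.elim0, ?_⟩, fun _ => mem_univ _, fun i => h i, fun j => j.elim0⟩
  rintro ⟨i | i, b⟩ ⟨j | j, c⟩ hij
  · cases b <;> cases c
    · have : i = j := va_inj hij
      rw [this]
    · exact absurd hij (va_ne_vb _ _)
    · exact absurd hij.symm (va_ne_vb _ _)
    · have : i = j := hf (vb_inj hij)
      rw [this]
  · exact j.elim0
  · exact i.elim0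
  · exact i.elim0

/-- there are no edges between `X` and `Y` -/
def NoEdge {r : ℕ} (R : SimpleGraph (Fin (2 * r + 1))) (X Y : Finset (Fin r)) : Prop :=
  ∀ i ∈ X, ∀ j ∈ Y, ¬ R.Adj (va r i) (vb r j)

theorem exists_of_not {r : ℕ} (R : SimpleGraph (Fin (2 * r + 1))) (h : ¬ HasRB R univ r 0) :
    ∃ X Y : Finset (Fin r), 1 ≤ X.card ∧ X.card ≤ r ∧ Y.card = r + 1 - X.card ∧
      NoEdge R X Y := by
  classical
  set t : Fin r → Finset (Fin r) := fun i => univ.filter (fun j => R.Adj (va r i) (vb r j))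
    with ht
  have h1 : ¬ ∀ s : Finset (Fin r), s.card ≤ (s.biUnion t).card := by
    intro h2
    obtain ⟨f, hf, hft⟩ := (Finset.all_card_le_biUnion_card_iff_exists_injective t).1 h2
    refine h (hasRB_of_inj R f hf fun i => ?_)
    have := hft i
    simpa [ht] using this
  push Not at h1
  obtain ⟨X, hX⟩ := h1
  have hXr : X.card ≤ r := by
    have := card_le_univ X
    rwa [Fintype.card_fin] at this
  have hc : r + 1 - X.card ≤ (X.biUnion t)ᶜ.card := by
    rw [card_compl, Fintype.card_fin]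
    omega
  obtain ⟨Y, hY, hYc⟩ := Finset.exists_subset_card_eq hc
  refine ⟨X, Y, by omega, hXr, hYc, fun i hi j hj hij => ?_⟩
  have h3 := hY hj
  rw [mem_compl, mem_biUnion] at h3
  exact h3 ⟨i, hi, by simp [ht, hij]⟩

/-- the graph of a set of pairs -/
def Sg {r : ℕ} (S : Finset (Fin r × Fin r)) : SimpleGraph (Fin (2 * r + 1)) :=
  SimpleGraph.fromRel (fun u v => ∃ p ∈ S, u = va r p.1 ∧ v = vb r p.2)

theorem Sg_adj {r : ℕ} (S : Finset (Fin r × Fin r)) (i j : Fin r) :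
    (Sg S).Adj (va r i) (vb r j) ↔ (i, j) ∈ S := by
  unfold Sg
  rw [SimpleGraph.fromRel_adj]
  constructor
  · rintro ⟨-, ⟨p, hp, h1, h2⟩ | ⟨p, hp, h1, h2⟩⟩
    · rw [va_inj h1, vb_inj h2]
      exact hp
    · exact absurd h1.symm (va_ne_vb _ _)
  · intro h
    exact ⟨va_ne_vb _ _, Or.inl ⟨(i, j), h, rfl, rfl⟩⟩

theorem count {r : ℕ} (X Y : Finset (Fin r)) :
    Nat.card {R : SimpleGraph (Fin (2 * r + 1)) // NoEdge R X Y} * 2 ^ (X.card * Y.card) ≤
      Nat.card (SimpleGraph (Fin (2 * r + 1))) := by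
  classical
  have h1 : Nat.card {S // S ∈ (X ×ˢ Y).powerset} = 2 ^ (X.card * Y.card) := by
    rw [Nat.card_eq_fintype_card, Fintype.card_coe, card_powerset, card_product]
  rw [← h1, ← Nat.card_prod]
  refine Nat.card_le_card_of_injective
    (fun x : {R : SimpleGraph (Fin (2 * r + 1)) // NoEdge R X Y} × {S // S ∈ (X ×ˢ Y).powerset} =>
      x.1.1 ⊔ Sg x.2.1) ?_
  rintro ⟨⟨R, hR⟩, ⟨S, hS⟩⟩ ⟨⟨R', hR'⟩, ⟨S', hS'⟩⟩ h
  have h : R ⊔ Sg S = R' ⊔ Sg S' := h
  have key : ∀ (R : SimpleGraph (Fin (2 * r + 1))) (S : Finset (Fin r × Fin r)), NoEdge R X Y →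
      S ∈ (X ×ˢ Y).powerset → ∀ i j, (i, j) ∈ S ↔ (i ∈ X ∧ j ∈ Y) ∧
        (R ⊔ Sg S).Adj (va r i) (vb r j) := by
    intro R S hR hS i j
    rw [mem_powerset] at hS
    constructor
    · intro hij
      refine ⟨mem_product.1 (hS hij), ?_⟩
      rw [SimpleGraph.sup_adj]
      exact Or.inr ((Sg_adj S i j).2 hij)
    · rintro ⟨⟨hi, hj⟩, ha⟩
      rw [SimpleGraph.sup_adj] at ha
      rcases ha with ha | ha
      · exact absurd ha (hR i hi j hj)
      · exact (Sg_adj S i j).1 ha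
  have hSS : S = S' := by
    ext ⟨i, j⟩
    rw [key R S hR hS i j, key R' S' hR' hS' i j, h]
  subst hSS
  have key2 : ∀ (R : SimpleGraph (Fin (2 * r + 1))), NoEdge R X Y → ∀ u v,
      R.Adj u v ↔ (R ⊔ Sg S).Adj u v ∧ ¬ (Sg S).Adj u v := by
    intro R hR u v
    rw [mem_powerset] at hS
    rw [SimpleGraph.sup_adj]
    constructor
    · intro huv
      refine ⟨Or.inl huv, fun hs => ?_⟩
      unfold Sg at hs
      rw [SimpleGraph.fromRel_adj] at hs
      rcases hs with ⟨-, ⟨p, hp, h1, h2⟩ | ⟨p, hp, h1, h2⟩⟩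
      · have := mem_product.1 (hS hp)
        rw [h1, h2] at huv
        exact hR _ this.1 _ this.2 huv
      · have := mem_product.1 (hS hp)
        rw [h1, h2] at huv
        exact hR _ this.1 _ this.2 huv.symm
    · rintro ⟨h1 | h1, h2⟩
      · exact h1
      · exact absurd h1 h2
  have hRR : R = R' := by
    ext u v
    rw [key2 R hR u v, key2 R' hR' u v, h]
  subst hRR
  rfl

/-- the numerical estimate for one term, first half -/
theorem term_le_aux (r s : ℕ) (hs : 1 ≤ s) (h2 : 2 * s ≤ r + 1)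
    (hq : (r : ℝ) ^ 2 * (1 / 2 : ℝ) ^ ((r + 1) / 2) ≤ 1) :
    (r.choose s : ℝ) * (r.choose (r + 1 - s) : ℝ) * (1 / 2 : ℝ) ^ (s * (r + 1 - s)) ≤
      (r : ℝ) ^ 2 * (1 / 2 : ℝ) ^ ((r + 1) / 2) := by
  have hr : 1 ≤ r := by omega
  have e1 : (r.choose s : ℝ) ≤ (r : ℝ) ^ s := by exact_mod_cast Nat.choose_le_pow r s
  have e2 : (r.choose (r + 1 - s) : ℝ) ≤ (r : ℝ) ^ s := by
    have h3 : r.choose (r + 1 - s) = r.choose (s - 1) :=
      Nat.choose_symm_of_eq_add (by omega)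
    have h4 : r.choose (s - 1) ≤ r ^ s :=
      (Nat.choose_le_pow r (s - 1)).trans (Nat.pow_le_pow_right hr (by omega))
    rw [h3]
    exact_mod_cast h4
  have e3 : (1 / 2 : ℝ) ^ (s * (r + 1 - s)) ≤ (1 / 2 : ℝ) ^ (s * ((r + 1) / 2)) := by
    refine pow_le_pow_of_le_one (by norm_num) (by norm_num) ?_
    exact Nat.mul_le_mul_left s (by omega)
  have e4 : (r.choose s : ℝ) * (r.choose (r + 1 - s) : ℝ) * (1 / 2 : ℝ) ^ (s * (r + 1 - s)) ≤
      ((r : ℝ) ^ s * (r : ℝ) ^ s) * (1 / 2 : ℝ) ^ (s * ((r + 1) / 2)) := by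
    refine mul_le_mul (mul_le_mul e1 e2 (by positivity) (by positivity)) e3 (by positivity)
      (by positivity)
  refine e4.trans ?_
  have e5 : ((r : ℝ) ^ s * (r : ℝ) ^ s) * (1 / 2 : ℝ) ^ (s * ((r + 1) / 2)) =
      ((r : ℝ) ^ 2 * (1 / 2 : ℝ) ^ ((r + 1) / 2)) ^ s := by
    rw [mul_pow, ← pow_mul, ← pow_mul, ← pow_add, mul_comm ((r + 1) / 2) s]
    ring_nf
  rw [e5]
  exact pow_le_of_le_one (by positivity) hq (by omega)

theorem term_le (r s : ℕ) (hs : 1 ≤ s) (hsr : s ≤ r)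
    (hq : (r : ℝ) ^ 2 * (1 / 2 : ℝ) ^ ((r + 1) / 2) ≤ 1) :
    (r.choose s : ℝ) * (r.choose (r + 1 - s) : ℝ) * (1 / 2 : ℝ) ^ (s * (r + 1 - s)) ≤
      (r : ℝ) ^ 2 * (1 / 2 : ℝ) ^ ((r + 1) / 2) := by
  by_cases h : 2 * s ≤ r + 1
  · exact term_le_aux r s hs h hq
  · have := term_le_aux r (r + 1 - s) (by omega) (by omega) hq
    have e : r + 1 - (r + 1 - s) = s := by omega
    rw [e] at this
    rw [mul_comm s (r + 1 - s), mul_comm (r.choose s : ℝ)]
    exact this

/-- the proportion of graphs without a matching of size `r` -/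
theorem bad_le (r : ℕ) (hq : (r : ℝ) ^ 2 * (1 / 2 : ℝ) ^ ((r + 1) / 2) ≤ 1) :
    (Nat.card {R : SimpleGraph (Fin (2 * r + 1)) // ¬ HasRB R univ r 0} : ℝ) ≤
      ((r : ℝ) * ((r : ℝ) ^ 2 * (1 / 2 : ℝ) ^ ((r + 1) / 2))) *
        (Nat.card (SimpleGraph (Fin (2 * r + 1))) : ℝ) := by
  classical
  haveI : Fintype (SimpleGraph (Fin (2 * r + 1))) := Fintype.ofFinite _
  have hsub : (univ.filter (fun R : SimpleGraph (Fin (2 * r + 1)) => ¬ HasRB R univ r 0)) ⊆
      (Icc 1 r).biUnion (fun s =>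
        (powersetCard s univ ×ˢ powersetCard (r + 1 - s) univ).biUnion (fun p =>
          univ.filter (fun R : SimpleGraph (Fin (2 * r + 1)) => NoEdge R p.1 p.2))) := by
    intro R hR
    rw [mem_filter] at hR
    obtain ⟨X, Y, h1, h2, h3, h4⟩ := exists_of_not R hR.2
    rw [mem_biUnion]
    refine ⟨X.card, mem_Icc.2 ⟨h1, h2⟩, ?_⟩
    rw [mem_biUnion]
    refine ⟨(X, Y), ?_, ?_⟩
    · rw [mem_product, mem_powersetCard, mem_powersetCard]
      exact ⟨⟨subset_univ _, rfl⟩, ⟨subset_univ _, h3⟩⟩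
    · rw [mem_filter]
      exact ⟨mem_univ _, h4⟩
  have hcount : ∀ X Y : Finset (Fin r),
      ((univ.filter (fun R : SimpleGraph (Fin (2 * r + 1)) => NoEdge R X Y)).card : ℝ) ≤
        (Nat.card (SimpleGraph (Fin (2 * r + 1))) : ℝ) * (1 / 2 : ℝ) ^ (X.card * Y.card) := by
    intro X Y
    have h1 := count X Y
    rw [Nat.card_eq_fintype_card, Fintype.card_subtype] at h1
    have h2 : ((univ.filter (fun R : SimpleGraph (Fin (2 * r + 1)) => NoEdge R X Y)).card : ℝ) *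
        2 ^ (X.card * Y.card) ≤ (Nat.card (SimpleGraph (Fin (2 * r + 1))) : ℝ) := by
      exact_mod_cast h1
    have h3 : (0 : ℝ) < (1 / 2 : ℝ) ^ (X.card * Y.card) := by positivity
    have h4 := mul_le_mul_of_nonneg_right h2 h3.le
    refine le_trans (le_of_eq ?_) h4
    rw [mul_assoc, ← mul_pow]
    norm_num
  have h5 : (Nat.card {R : SimpleGraph (Fin (2 * r + 1)) // ¬ HasRB R univ r 0} : ℝ) =
      ((univ.filter (fun R : SimpleGraph (Fin (2 * r + 1)) => ¬ HasRB R univ r 0)).card : ℝ) := by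
    rw [Nat.card_eq_fintype_card, Fintype.card_subtype]
  rw [h5]
  have h6 : ((univ.filter (fun R : SimpleGraph (Fin (2 * r + 1)) =>
      ¬ HasRB R univ r 0)).card : ℝ) ≤
      ∑ s ∈ Icc 1 r, ∑ p ∈ powersetCard s (univ : Finset (Fin r)) ×ˢ
        powersetCard (r + 1 - s) (univ : Finset (Fin r)),
        ((univ.filter (fun R : SimpleGraph (Fin (2 * r + 1)) => NoEdge R p.1 p.2)).card : ℝ) := by
    have h7 := (card_le_card hsub).trans card_biUnion_le
    have h8 : ∀ s ∈ Icc 1 r, ((powersetCard s (univ : Finset (Fin r)) ×ˢ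
        powersetCard (r + 1 - s) (univ : Finset (Fin r))).biUnion (fun p =>
          univ.filter (fun R : SimpleGraph (Fin (2 * r + 1)) => NoEdge R p.1 p.2))).card ≤
        ∑ p ∈ powersetCard s (univ : Finset (Fin r)) ×ˢ
        powersetCard (r + 1 - s) (univ : Finset (Fin r)),
        (univ.filter (fun R : SimpleGraph (Fin (2 * r + 1)) => NoEdge R p.1 p.2)).card :=
      fun s _ => card_biUnion_le
    have h9 := h7.trans (sum_le_sum h8)
    exact_mod_cast h9
  refine h6.trans ?_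
  have h10 : ∀ s ∈ Icc 1 r, ∑ p ∈ powersetCard s (univ : Finset (Fin r)) ×ˢ
        powersetCard (r + 1 - s) (univ : Finset (Fin r)),
        ((univ.filter (fun R : SimpleGraph (Fin (2 * r + 1)) => NoEdge R p.1 p.2)).card : ℝ) ≤
      ((r : ℝ) ^ 2 * (1 / 2 : ℝ) ^ ((r + 1) / 2)) *
        (Nat.card (SimpleGraph (Fin (2 * r + 1))) : ℝ) := by
    intro s hs
    rw [mem_Icc] at hs
    have h11 : ∑ p ∈ powersetCard s (univ : Finset (Fin r)) ×ˢ
        powersetCard (r + 1 - s) (univ : Finset (Fin r)),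
        ((univ.filter (fun R : SimpleGraph (Fin (2 * r + 1)) => NoEdge R p.1 p.2)).card : ℝ) ≤
        ∑ p ∈ powersetCard s (univ : Finset (Fin r)) ×ˢ
        powersetCard (r + 1 - s) (univ : Finset (Fin r)),
          (Nat.card (SimpleGraph (Fin (2 * r + 1))) : ℝ) * (1 / 2 : ℝ) ^ (s * (r + 1 - s)) := by
      refine sum_le_sum fun p hp => ?_
      rw [mem_product, mem_powersetCard, mem_powersetCard] at hp
      have := hcount p.1 p.2
      rwa [hp.1.2, hp.2.2] at this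
    refine h11.trans ?_
    rw [sum_const, card_product, card_powersetCard, card_powersetCard, card_univ,
      Fintype.card_fin, nsmul_eq_mul]
    push_cast
    have h12 := term_le r s hs.1 hs.2 hq
    have h13 : (0 : ℝ) ≤ (Nat.card (SimpleGraph (Fin (2 * r + 1))) : ℝ) := by positivity
    have h14 := mul_le_mul_of_nonneg_right h12 h13
    refine le_trans (le_of_eq ?_) h14
    ring
  refine (sum_le_sum h10).trans (le_of_eq ?_)
  rw [sum_const, Nat.card_Icc, nsmul_eq_mul]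
  simp only [add_tsub_cancel_right]
  ring

theorem hasRB_compl {r : ℕ} (R : SimpleGraph (Fin (2 * r + 1))) (h : HasRB Rᶜ univ r 0) :
    HasRB R univ 0 r := by
  obtain ⟨f, -, h2, -⟩ := h
  refine ⟨⟨fun x => f (x.1.swap, x.2), ?_⟩, fun _ => mem_univ _, fun i => i.elim0,
    fun b => h2 b⟩
  rintro ⟨x, b⟩ ⟨y, c⟩ hxy
  have h3 := f.injective hxy
  rw [Prod.mk.injEq] at h3
  rw [Prod.mk.injEq]
  exact ⟨Sum.swap_leftInverse.injective h3.1, h3.2⟩

theorem main : W872.MX.PartODD → W872.MX.PartRND := by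
  intro hODD
  have key : ∀ r : ℕ, (r : ℝ) ^ 2 * (1 / 2 : ℝ) ^ ((r + 1) / 2) ≤ 1 →
      1 - 2 * ((r : ℝ) * ((r : ℝ) ^ 2 * (1 / 2 : ℝ) ^ ((r + 1) / 2))) ≤
        ((Nat.card {R : SimpleGraph (Fin (2 * r + 1)) // PM R univ} : ℕ) : ℝ) /
          ((Nat.card (SimpleGraph (Fin (2 * r + 1))) : ℕ) : ℝ) := by
    intro r hq
    classical
    haveI : Fintype (SimpleGraph (Fin (2 * r + 1))) := Fintype.ofFinite _
    have hpos : (0 : ℝ) < (Nat.card (SimpleGraph (Fin (2 * r + 1))) : ℝ) := by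
      exact_mod_cast Nat.card_pos
    rw [le_div_iff₀ hpos]
    have hbad := bad_le r hq
    have hc : (Nat.card (SimpleGraph (Fin (2 * r + 1)))) ≤
        Nat.card {R : SimpleGraph (Fin (2 * r + 1)) // PM R univ} +
        (Nat.card {R : SimpleGraph (Fin (2 * r + 1)) // ¬ HasRB R univ r 0} +
        Nat.card {R : SimpleGraph (Fin (2 * r + 1)) // ¬ HasRB R univ 0 r}) := by
      simp only [Nat.card_eq_fintype_card, Fintype.card_subtype]
      rw [← card_univ]
      refine le_trans (card_le_card ?_) ((card_union_le _ _).trans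
        (Nat.add_le_add_left (card_union_le _ _) _))
      intro R _
      simp only [mem_union, mem_filter, mem_univ, true_and]
      by_cases h1 : HasRB R univ r 0
      · by_cases h2 : HasRB R univ 0 r
        · exact Or.inl (hODD r R h1 h2)
        · exact Or.inr (Or.inr h2)
      · exact Or.inr (Or.inl h1)
    have hsym : Nat.card {R : SimpleGraph (Fin (2 * r + 1)) // ¬ HasRB R univ 0 r} ≤
        Nat.card {R : SimpleGraph (Fin (2 * r + 1)) // ¬ HasRB R univ r 0} := by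
      refine Nat.card_le_card_of_injective (fun x => ⟨x.1ᶜ, fun h => x.2 (hasRB_compl x.1 h)⟩) ?_
      rintro ⟨R, hR⟩ ⟨R', hR'⟩ h
      have h1 : Rᶜ = R'ᶜ := congrArg Subtype.val h
      exact Subtype.ext (compl_injective h1)
    have hc' : (Nat.card (SimpleGraph (Fin (2 * r + 1))) : ℝ) ≤
        (Nat.card {R : SimpleGraph (Fin (2 * r + 1)) // PM R univ} : ℝ) +
        ((Nat.card {R : SimpleGraph (Fin (2 * r + 1)) // ¬ HasRB R univ r 0} : ℝ) +
        (Nat.card {R : SimpleGraph (Fin (2 * r + 1)) // ¬ HasRB R univ 0 r} : ℝ)) := by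
      exact_mod_cast hc
    have hsym' : (Nat.card {R : SimpleGraph (Fin (2 * r + 1)) // ¬ HasRB R univ 0 r} : ℝ) ≤
        (Nat.card {R : SimpleGraph (Fin (2 * r + 1)) // ¬ HasRB R univ r 0} : ℝ) := by
      exact_mod_cast hsym
    nlinarith [hbad, hc', hsym']
  have key2 : ∀ r : ℕ, ((Nat.card {R : SimpleGraph (Fin (2 * r + 1)) // PM R univ} : ℕ) : ℝ) /
          ((Nat.card (SimpleGraph (Fin (2 * r + 1))) : ℕ) : ℝ) ≤ 1 := by
    intro r
    have hpos : (0 : ℝ) < (Nat.card (SimpleGraph (Fin (2 * r + 1))) : ℝ) := by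
      exact_mod_cast Nat.card_pos
    rw [div_le_one hpos]
    have : Nat.card {R : SimpleGraph (Fin (2 * r + 1)) // PM R univ} ≤
        Nat.card (SimpleGraph (Fin (2 * r + 1))) :=
      Nat.card_le_card_of_injective (fun x => x.1) Subtype.val_injective
    exact_mod_cast this
  have hlim : Tendsto (fun r : ℕ => (r : ℝ) * ((r : ℝ) ^ 2 * (1 / 2 : ℝ) ^ ((r + 1) / 2)))
      atTop (nhds 0) := by
    have h1 : Tendsto (fun n : ℕ => (n : ℝ) ^ 3 * (1 / 2 : ℝ) ^ n) atTop (nhds 0) :=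
      tendsto_pow_const_mul_const_pow_of_abs_lt_one 3 (by rw [abs_of_pos] <;> norm_num)
    have h2 : Tendsto (fun r : ℕ => (r + 1) / 2) atTop atTop :=
      (Nat.tendsto_div_const_atTop (by norm_num)).comp (tendsto_add_atTop_nat 1)
    have h3 := (h1.comp h2).const_mul 8
    rw [mul_zero] at h3
    refine squeeze_zero (fun r => by positivity) (fun r => ?_) h3
    have h4 : (r : ℝ) ≤ 2 * (((r + 1) / 2 : ℕ) : ℝ) := by
      have : r ≤ 2 * ((r + 1) / 2) := by omega
      exact_mod_cast this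
    have h5 : (r : ℝ) ^ 3 ≤ (2 * (((r + 1) / 2 : ℕ) : ℝ)) ^ 3 :=
      pow_le_pow_left₀ (by positivity) h4 3
    have h6 : (0 : ℝ) ≤ (1 / 2 : ℝ) ^ ((r + 1) / 2) := by positivity
    have h7 := mul_le_mul_of_nonneg_right h5 h6
    simp only [Function.comp]
    refine le_trans (le_of_eq ?_) (h7.trans (le_of_eq ?_))
    · ring
    · ring
  have hev : ∀ᶠ r : ℕ in atTop, (r : ℝ) ^ 2 * (1 / 2 : ℝ) ^ ((r + 1) / 2) ≤ 1 := by
    have h1 : ∀ᶠ r : ℕ in atTop, (r : ℝ) * ((r : ℝ) ^ 2 * (1 / 2 : ℝ) ^ ((r + 1) / 2)) < 1 :=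
      hlim.eventually (gt_mem_nhds (by norm_num))
    filter_upwards [h1, eventually_ge_atTop 1] with r hr hr1
    have h2 : (1 : ℝ) ≤ (r : ℝ) := by exact_mod_cast hr1
    have h3 : (0 : ℝ) ≤ (r : ℝ) ^ 2 * (1 / 2 : ℝ) ^ ((r + 1) / 2) := by positivity
    nlinarith
  have hlow : Tendsto (fun r : ℕ =>
      1 - 2 * ((r : ℝ) * ((r : ℝ) ^ 2 * (1 / 2 : ℝ) ^ ((r + 1) / 2)))) atTop (nhds 1) := by
    have := (hlim.const_mul 2).const_sub 1
    simpa using this
  refine tendsto_of_tendsto_of_tendsto_of_le_of_le' hlow tendsto_const_nhds ?_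
    (Eventually.of_forall key2)
  filter_upwards [hev] with r hr
  exact key r hr

end W369.MX
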