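import Pool.Agent.W587.MX.Stm

/-!
# Part C3 of project MX (MP_d797f5_an): some index is neither of type alpha nor of type beta
-/

set_option autoImplicit false

namespace Pool.Agent.W369.MX

open Set Filter Topology Metric Pool.Agent.W587.MX

/-- the number of indices whose points tend to `0` is at most `m` -/
theorem card_zero_le (f fs : ℂ → ℂ) (m : ℕ) (δ : ℝ) (K : ℕ) (l : Ultrafilter ℕ)
    (a : ℕ → ℂ) (z w : ℕ → Fin K → ℂ) (hC : Cnt f m δ)
    (hS : ∀ n, SP f fs K (a n) (z n) (w n)) (s : Finset (Fin K))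
    (hs : ∀ i ∈ s, Tendsto (fun n => z n i) l (𝓝 0)) : s.card ≤ m := by
  classical
  have h1 : ∀ᶠ n in (l : Filter ℕ), ∀ i ∈ s, ‖z n i‖ < δ := by
    rw [Filter.eventually_all_finset]
    intro i hi
    have h2 := (hs i hi).norm
    rw [norm_zero] at h2
    exact h2.eventually (gt_mem_nhds hC.1)
  obtain ⟨n, hn⟩ := h1.exists
  obtain ⟨ha, hinj, Z, W, hZ, -, -, -⟩ := hS n
  have h3 := hC.2 (a n) ha (s.image (z n)) (by
    intro x hx
    obtain ⟨i, hi, rfl⟩ := Finset.mem_image.1 hx
    refine ⟨hn i hi, ?_⟩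
    have h4 := (hZ i).1.2.self_of_nhds
    rw [(hZ i).2] at h4
    exact h4.2)
  rwa [Finset.card_image_of_injective s hinj] at h3

/-- Part C3. -/
theorem c3_idx (hsym : S1_SYM) : C3_IDX := by
  classical
  intro f fs m δ K l a z w hf hfs hK hS
  by_contra hcon
  push Not at hcon
  have hA := card_zero_le f fs m δ K l a z w hf hS
    (Finset.univ.filter fun i => Tendsto (fun n => z n i) l (𝓝 0))
    (fun i hi => (Finset.mem_filter.1 hi).2)
  have hB := card_zero_le fs f m δ K l a w z hfs
    (fun n => (hsym f fs K (a n) (z n) (w n) (hS n)).1)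
    (Finset.univ.filter fun i => Tendsto (fun n => w n i) l (𝓝 0))
    (fun i hi => (Finset.mem_filter.1 hi).2)
  have hU : (Finset.univ : Finset (Fin K)) ⊆
      (Finset.univ.filter fun i => Tendsto (fun n => z n i) l (𝓝 0)) ∪
      (Finset.univ.filter fun i => Tendsto (fun n => w n i) l (𝓝 0)) := by
    intro i _
    rw [Finset.mem_union, Finset.mem_filter, Finset.mem_filter]
    by_cases hi : Tendsto (fun n => z n i) l (𝓝 0)
    · exact Or.inl ⟨Finset.mem_univ _, hi⟩
    · exact Or.inr ⟨Finset.mem_univ _, hcon i hi⟩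
  have h1 := Finset.card_le_card hU
  have h2 := h1.trans (Finset.card_union_le _ _)
  rw [Finset.card_univ, Fintype.card_fin] at h2
  omega

end Pool.Agent.W369.MX
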